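import Pool.Agent.helper97.GD.Spec

/-! Row gd:GMN (helper50): a smallest exponent. -/

set_option autoImplicit false

open Filter FirstOrder FirstOrder.Language

namespace Pool.Agent.GD

open Pool.Agent.UnivT

theorem GMN : GMN_stmt := by
  intro U l
  induction l with
  | nil => intro h; exact absurd rfl h
  | cons a m ih =>
    intro _
    by_cases hm : m = []
    · subst hm
      refine ⟨a, List.mem_singleton.2 rfl, ?_⟩
      intro y hy
      rw [List.mem_singleton.1 hy]
      exact Eventually.of_forall fun k => le_refl _
    · obtain ⟨x, hx, hx'⟩ := ih hm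
      have h1 : (∀ᶠ k in (U : Filter ℕ), a.2 k ≤ x.2 k) ∨ (∀ᶠ k in (U : Filter ℕ), x.2 k ≤ a.2 k) := by
        rw [← Ultrafilter.eventually_or]
        exact Eventually.of_forall fun k => le_total _ _
      rcases h1 with h1 | h1
      · refine ⟨a, List.mem_cons_self, ?_⟩
        intro y hy
        rcases List.mem_cons.1 hy with hy | hy
        · rw [hy]
          exact Eventually.of_forall fun k => le_refl _
        · exact (h1.and (hx' y hy)).mono fun k hk => le_trans hk.1 hk.2
      · refine ⟨x, List.mem_cons_of_mem _ hx, ?_⟩
        intro y hy
        rcases List.mem_cons.1 hy with hy | hy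
        · rw [hy]
          exact h1
        · exact hx' y hy

end Pool.Agent.GD
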