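import Pool.Agent.helper65.GD.SpecE

set_option autoImplicit false

namespace Pool.Agent.GD

open Finset Metric Filter Topology

theorem LIN_add (p : ℕ) (Φ : ℕ → ℕ → ℂ) (c : ℕ → ℂ) (j : ℕ) (δ : ℂ) (hj1 : 1 ≤ j) (hj : j ≤ p)
    (i : ℕ) :
    cmb p Φ (fun m => c m + if m = j then δ else 0) i = cmb p Φ c i + δ * Φ j i := by
  unfold cmb
  have e : ∀ m ∈ Icc 1 p, (c m + if m = j then δ else 0) * Φ m i
      = c m * Φ m i + (if m = j then δ * Φ m i else 0) := by
    intro m _
    by_cases h : m = j
    · simp only [h, if_true]
      ring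
    · simp [h]
  rw [Finset.sum_congr rfl e, Finset.sum_add_distrib, Finset.sum_ite_eq' (Icc 1 p) j,
    if_pos (Finset.mem_Icc.2 ⟨hj1, hj⟩)]

theorem LIN : LIN_stmt := by
  intro p Φ hlow hdiag
  constructor
  · intro t
    have key : ∀ k : ℕ, k ≤ p → ∃ c : ℕ → ℂ, ∀ i ∈ Icc 1 k, cmb p Φ c i = t i := by
      intro k
      induction k with
      | zero =>
        intro _
        refine ⟨fun _ => 0, ?_⟩
        intro i hi
        rw [Finset.mem_Icc] at hi
        omega
      | succ k ih =>
        intro hk
        obtain ⟨c, hc⟩ := ih (by omega)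
        refine ⟨fun m => c m + if m = k + 1 then t (k + 1) - cmb p Φ c (k + 1) else 0, ?_⟩
        intro i hi
        rw [LIN_add p Φ c (k + 1) _ (by omega) hk i]
        rw [Finset.mem_Icc] at hi
        by_cases h : i = k + 1
        · rw [h, hdiag (k + 1)]
          ring
        · rw [hlow (k + 1) i (by omega), mul_zero, add_zero]
          exact hc i (Finset.mem_Icc.2 ⟨hi.1, by omega⟩)
    exact key p le_rfl
  · intro c hc m
    induction m using Nat.strong_induction_on with
    | _ m ih =>
      intro hm
      have h0 := hc m hm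
      unfold cmb at h0
      rw [Finset.sum_eq_single m] at h0
      · rw [hdiag m, mul_one] at h0
        exact h0
      · intro i hi hne
        rcases lt_or_gt_of_ne hne with h | h
        · rw [ih i h hi, zero_mul]
        · rw [hlow i m h, mul_zero]
      · intro h
        exact absurd hm h

end Pool.Agent.GD
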